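import Pool.Agent.Helper33.DG.K_SUM

/-!
# Project DG (MP_06d934_gt): packet N_SUM (the signed count near the solution of the three block problem which is not Kähler)
-/

set_option autoImplicit false

namespace Pool.Agent.Helper31.DG

open Pool.Agent.Helper83.EIN Pool.Agent.Helper58.DG Topology Finset
open Pool.Agent.Helper33.DG (jac_of_lines sg_of_pos)

theorem sc_third : sc (1 / 3) (1 / 3) (1 / 3) = 5 / 4 := by
  unfold sc
  norm_num

theorem zN_third : zN (1 / 3) (1 / 3) (1 / 3) = ![5 / 6, 5 / 6, 5 / 6, 0, 0, 0] := by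
  unfold zN
  rw [sc_third]
  norm_num

theorem diff_FN (a b c t : ℝ) : ContDiff ℝ 1 (FN a b c t) :=
  (FN_cd a b c).comp (contDiff_prodMk_right t)

/-- The Jacobian matrix at the limit zero. -/
noncomputable def AN : Matrix (Fin 6) (Fin 6) ℝ :=
  !![5 / 6, 5 / 18, 5 / 18, 0, 0, 0; 5 / 18, 5 / 6, 5 / 18, 0, 0, 0; 5 / 18, 5 / 18, 5 / 6, 0, 0, 0;
    0, 0, 0, 5 / 18, 5 / 9, 5 / 9; 0, 0, 0, 5 / 9, 5 / 18, 5 / 9; 0, 0, 0, 5 / 9, 5 / 9, 5 / 18]

theorem det_AN : AN.det = 390625 / 8503056 := by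
  unfold AN
  simp [Matrix.det_succ_row_zero, Fin.sum_univ_succ, Fin.succAbove]
  norm_num

/-- The limit determinant. -/
theorem jac_FN_zero :
    jac (FN (1 / 3) (1 / 3) (1 / 3) 0) (zN (1 / 3) (1 / 3) (1 / 3)) = 390625 / 8503056 := by
  rw [← det_AN]
  refine jac_of_lines AN ((diff_FN _ _ _ _).differentiable one_ne_zero _) fun v i ↦ ?_
  rw [zN_third]
  fin_cases i <;> simp [FN] <;>
    simp (disch := fun_prop) only [deriv_fun_add, deriv_fun_sub, deriv_fun_mul, deriv_fun_pow,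
      deriv_const, deriv_id'', deriv.fun_neg] <;>
    simp [AN, Matrix.mulVec, dotProduct, Fin.sum_univ_succ] <;> ring

theorem jac_psN (t : ℝ) (u : Fin 6 → ℝ) : jac (psN t) u = t ^ 6 := by
  have hd : ContDiff ℝ 1 (psN t) := by
    unfold psN
    rw [contDiff_pi]
    intro i
    fin_cases i <;> simp <;> fun_prop
  rw [jac_of_lines (Matrix.diagonal fun _ ↦ t) (hd.differentiable one_ne_zero _)]
  · rw [Matrix.det_diagonal]
    simp
  · intro v i
    rw [Matrix.mulVec_diagonal]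
    fin_cases i <;> simp [psN]

/-- The sign of the Jacobian determinant in the chart. -/
theorem sg_N (h2 : C_TRF) {a b c t : ℝ} (ht : 0 < t) {u : Fin 6 → ℝ}
    (h0 : FN a b c t u = 0) (hA : FA a b c t (psN t u) = 0) :
    (jac (FN a b c t) u ≠ 0 → jac (FA a b c t) (psN t u) ≠ 0) ∧
      sg (jac (FA a b c t) (psN t u)) = sg (jac (FN a b c t) u) := by
  have hd : ContDiff ℝ 1 (psN t) := by
    unfold psN
    rw [contDiff_pi]
    intro i
    fin_cases i <;> simp <;> fun_prop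
  have hFA : ContDiff ℝ 1 (FA a b c t) := (FA_cd a b c).comp (contDiff_prodMk_right t)
  have key := h2 6 (FA a b c t) (psN t) (FN a b c t) (fun _ ↦ 1) (fun _ ↦ t ^ 3 • 1)
    u hFA hd (diff_FN a b c t) (fun i j ↦ contDiff_const) (fun i j ↦ contDiff_const) ?_ h0 hA
  · rw [Matrix.det_one, one_mul, jac_psN, Matrix.det_smul, Matrix.det_one, mul_one,
      Fintype.card_fin] at key
    have hD : 0 < t ^ 6 := by positivity
    have hE : 0 < (t ^ 3) ^ 6 := by positivity
    refine ⟨fun hne h4 ↦ ?_, ?_⟩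
    · rw [h4, zero_mul] at key
      rcases mul_eq_zero.1 key.symm with h5 | h5
      · exact hE.ne' h5
      · exact hne h5
    · unfold sg
      have h1 : SignType.sign (jac (FA a b c t) (psN t u)) = SignType.sign (jac (FN a b c t) u) := by
        have h2 : SignType.sign (jac (FA a b c t) (psN t u) * t ^ 6) =
            SignType.sign ((t ^ 3) ^ 6 * jac (FN a b c t) u) := by rw [key]
        rwa [sign_mul, sign_pos hD, mul_one, sign_mul, sign_pos hE, one_mul] at h2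
      rw [h1]
  · intro y
    rw [Matrix.one_mulVec, FA_psN, Matrix.smul_mulVec, Matrix.one_mulVec]

/-- **N_SUM**. -/
theorem n_sum (hC : C_SGN) (hT : C_TRF) : N_SUM := by
  classical
  intro r hr hr6
  have ha : (0 : ℝ) < 1 / 3 := by norm_num
  have habc : (1 : ℝ) / 3 + 1 / 3 + 1 / 3 = 1 := by norm_num
  have hzN := zN_third
  have hK : IsCompact (Set.Icc (![5 / 6 - r, 5 / 6 - r, 5 / 6 - r, -1, -1, -1] : Fin 6 → ℝ)
      ![5 / 6 + r, 5 / 6 + r, 5 / 6 + r, 1, 1, 1]) := isCompact_Icc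
  suffices hcount : ∃ ε > 0, ∀ t, 0 < t → t < ε → ∃ Zt : Finset (Fin 6 → ℝ),
      (∀ u, u ∈ Zt ↔ u ∈ {u | Sol (1 / 3) (1 / 3) (1 / 3) t (psN t u) ∧
        |psN t u 0 / t - 5 / 6| < r ∧ |psN t u 1 / t - 5 / 6| < r ∧
        |psN t u 2 / t - 5 / 6| < r}) ∧
      (∀ u ∈ Zt, jac (FN (1 / 3) (1 / 3) (1 / 3) t) u ≠ 0) ∧
      ∑ u ∈ Zt, sg (jac (FN (1 / 3) (1 / 3) (1 / 3) t) u) =
        ∑ z ∈ ({zN (1 / 3) (1 / 3) (1 / 3)} : Finset (Fin 6 → ℝ)),
          sg (jac (FN (1 / 3) (1 / 3) (1 / 3) 0) z) by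
    obtain ⟨ε, hε, hcount⟩ := hcount
    refine ⟨ε, hε, fun t ht0 htε ↦ ?_⟩
    obtain ⟨Zt, m1, m2, m3⟩ := hcount t ht0 htε
    rw [sum_singleton, jac_FN_zero, sg_of_pos (by norm_num)] at m3
    have hrel : ∀ u ∈ Zt, (jac (FN (1 / 3) (1 / 3) (1 / 3) t) u ≠ 0 →
        jac (FA (1 / 3) (1 / 3) (1 / 3) t) (psN t u) ≠ 0) ∧
        sg (jac (FA (1 / 3) (1 / 3) (1 / 3) t) (psN t u)) =
          sg (jac (FN (1 / 3) (1 / 3) (1 / 3) t) u) := by
      intro u hu
      obtain ⟨hS, -⟩ := (m1 u).1 hu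
      exact sg_N hT ht0 ((sol_iff_FN ht0 hS.pos).1 hS) ((sol_iff_FA hS.pos).1 hS)
    refine ⟨Zt.image (psN t), ?_, ?_, ?_⟩
    · intro v
      rw [mem_image]
      constructor
      · rintro ⟨u, hu, rfl⟩
        exact (m1 u).1 hu
      · intro hv
        refine ⟨_, (m1 _).2 ?_, psN_surj ht0 v⟩
        rw [Set.mem_ofPred_eq, psN_surj ht0 v]
        exact hv
    · intro v hv
      obtain ⟨u, hu, rfl⟩ := mem_image.1 hv
      exact (hrel u hu).1 (m2 u hu)
    · rw [sum_image fun u _ w _ h ↦ psN_inj ht0 h, sum_congr rfl fun u hu ↦ (hrel u hu).2, m3]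
  refine hC 6 (FN (1 / 3) (1 / 3) (1 / 3)) _ _
    (Set.pi Set.univ fun i ↦ Set.Ioo
      ((![5 / 6 - r, 5 / 6 - r, 5 / 6 - r, -2, -2, -2] : Fin 6 → ℝ) i)
      ((![5 / 6 + r, 5 / 6 + r, 5 / 6 + r, 2, 2, 2] : Fin 6 → ℝ) i)) _
    (1 / 4) (FN_cd _ _ _) hK ?_ ?_ ?_ ?_ (by norm_num) ?_ ?_
  · intro u hu h0
    rw [Set.mem_Icc, Pi.le_def, Pi.le_def] at hu
    have l0 := hu.1 0
    have l1 := hu.1 1
    have l2 := hu.1 2
    simp at l0 l1 l2
    have f0 := congrFun h0 0
    have f1 := congrFun h0 1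
    have f2 := congrFun h0 2
    have f3 := congrFun h0 3
    have f4 := congrFun h0 4
    have f5 := congrFun h0 5
    simp only [FN] at f0 f1 f2 f3 f4 f5
    simp only [Matrix.cons_val, zero_mul, add_zero, sub_zero, Pi.zero_apply, mul_one,
      one_mul, zero_sub] at f0 f1 f2 f3 f4 f5
    have hu0 : 0 < u 0 := by linarith
    have hE3 : E3 (1 / 3) (1 / 3) (1 / 3) (u 0) (u 1) (u 2) := ⟨f0, f1, f2⟩
    rcases three ha ha ha habc hu0 hE3 with ⟨q0, q1, q2⟩ | ⟨q0, q1, q2⟩ | ⟨q0, q1, q2⟩ |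
      ⟨q0, q1, q2⟩
    · rw [sc_third] at q0 q1 q2
      have p0 : u 0 = 5 / 6 := by rw [q0]; norm_num
      have p1 : u 1 = 5 / 6 := by rw [q1]; norm_num
      have p2 : u 2 = 5 / 6 := by rw [q2]; norm_num
      rw [p0, p1] at f3
      rw [p0, p2] at f4
      rw [p1, p2] at f5
      rw [mem_singleton, hzN]
      funext i
      fin_cases i
      · exact p0
      · exact p1
      · exact p2
      · show u 3 = 0
        linarith
      · show u 4 = 0
        linarith
      · show u 5 = 0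
        linarith
    · exfalso
      linarith
    · exfalso
      linarith
    · exfalso
      linarith
  · intro z hz
    rw [mem_singleton] at hz
    subst hz
    rw [hzN]
    funext i
    fin_cases i <;> simp [FN] <;> norm_num
  · intro z hz
    rw [mem_singleton] at hz
    subst hz
    rw [jac_FN_zero]
    norm_num
  · intro z hz
    rw [mem_singleton] at hz
    subst hz
    rw [hzN]
    refine (isOpen_set_pi Set.finite_univ fun i _ ↦ isOpen_Ioo).mem_nhds ?_
    intro i _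
    fin_cases i <;> simp <;> linarith
  · rintro t ht ht2 u ⟨hu, g0, g1, g2⟩
    have B := bd ti ha ha ha habc ht (by linarith) hu
    have H := heights ht B
    have ht' := ht.ne'
    simp [psN, ht'] at g0 g1 g2
    rw [abs_lt] at g0 g1 g2
    obtain ⟨⟨x3, y3⟩, ⟨x4, y4⟩, x5, y5⟩ := H
    refine ⟨⟨?_, ?_⟩, (sol_iff_FN ht hu.pos).1 hu⟩
    · intro i
      fin_cases i <;> simp <;> linarith
    · intro i
      fin_cases i <;> simp <;> linarith
  · intro t ht ht2 u hu h0
    obtain ⟨l0, m0⟩ := hu 0 trivial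
    obtain ⟨l1, m1⟩ := hu 1 trivial
    obtain ⟨l2, m2⟩ := hu 2 trivial
    obtain ⟨l3, m3⟩ := hu 3 trivial
    obtain ⟨l4, m4⟩ := hu 4 trivial
    obtain ⟨l5, m5⟩ := hu 5 trivial
    simp at l0 l1 l2 l3 l4 l5 m0 m1 m2 m3 m4 m5
    have ht' := ht.ne'
    refine ⟨(sol_iff_FN ht ?_).2 h0, ?_, ?_, ?_⟩
    · intro i
      fin_cases i
      · exact mul_pos ht (by linarith)
      · exact mul_pos ht (by linarith)
      · exact mul_pos ht (by linarith)
      · show 0 < 1 + t * u 3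
        nlinarith
      · show 0 < 1 + t * u 4
        nlinarith
      · show 0 < 1 + t * u 5
        nlinarith
    · simp [psN, ht']
      rw [abs_lt]
      constructor <;> linarith
    · simp [psN, ht']
      rw [abs_lt]
      constructor <;> linarith
    · simp [psN, ht']
      rw [abs_lt]
      constructor <;> linarith

end Pool.Agent.Helper31.DG
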